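import Pool.Agent.W601.RP.Stm2

set_option autoImplicit false
open scoped Classical
open Filter Topology

namespace Pool.Agent.W576.RP

open Pool.Agent.W601.RP

theorem fin_lists {α : Type} (S : Set α) (hS : S.Finite) (n : ℕ) :
    {l : List α | l.length ≤ n ∧ ∀ x ∈ l, x ∈ S}.Finite := by
  induction n with
  | zero =>
    apply (Set.finite_singleton ([] : List α)).subset
    rintro l ⟨hl, -⟩
    exact List.length_eq_zero_iff.1 (Nat.le_zero.1 hl)
  | succ n ih =>
    apply ((Set.finite_singleton ([] : List α)).union (Set.Finite.image2 List.cons hS ih)).subset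
    rintro l ⟨hl, hx⟩
    cases l with
    | nil => exact Or.inl rfl
    | cons a l =>
      refine Or.inr ⟨a, hx a List.mem_cons_self, l, ⟨?_, ?_⟩, rfl⟩
      · simpa using hl
      · intro x h
        exact hx x (List.mem_cons_of_mem _ h)

theorem fin_letters (m : ℕ) : {a : Letter | GoodL a ∧ nL a ≤ m}.Finite := by
  have h1 : {s : List ℕ | s.length ≤ m ∧ ∀ x ∈ s, x ∈ Set.Iio (∑ i ∈ Finset.range m, M i)}.Finite :=
    fin_lists _ (Set.finite_Iio _) m
  have h2 := fin_lists _ h1 m
  apply ((Set.finite_Iic m).prod h2).subset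
  rintro a ⟨hg, hm⟩
  obtain ⟨-, hg2, -, hg4, -, hg6, hg7⟩ := hg
  refine ⟨?_, ?_, ?_⟩
  · exact le_trans hg2 hm
  · exact le_trans hg4 hm
  · intro s hs
    refine ⟨?_, ?_⟩
    · rw [hg6 s hs]
      exact hm
    · intro x hx
      obtain ⟨i, hi, rfl⟩ := List.getElem_of_mem hx
      have hi' : i < nL a := by rw [← hg6 s hs]; exact hi
      have h3 := hg7 s hs i hi'
      rw [List.getD_eq_getElem _ _ hi] at h3
      have h4 : M i ≤ ∑ i ∈ Finset.range m, M i :=
        Finset.single_le_sum (f := M) (fun _ _ => Nat.zero_le _)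
          (Finset.mem_range.2 (lt_of_lt_of_le hi' hm))
      exact lt_of_lt_of_le h3 h4

theorem lst_mem {l : List Letter} (hl : l ≠ []) : lst l ∈ l := by
  unfold lst
  rw [List.getLastD_eq_getLast?, List.getLast?_eq_getLast_of_ne_nil hl]
  exact List.getLast_mem hl

theorem le_last (l : List Letter) (hp : l.Pairwise Foll) :
    ∀ a ∈ l, nL a ≤ nL (lst l) := by
  intro a ha
  have hne : l ≠ [] := List.ne_nil_of_mem ha
  have hl : lst l = l.getLast hne := by
    unfold lst
    rw [List.getLastD_eq_getLast?, List.getLast?_eq_getLast_of_ne_nil hne]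
    rfl
  rw [hl]
  have h1 := List.dropLast_append_getLast hne
  rw [← h1, List.pairwise_append] at hp
  rw [← h1, List.mem_append] at ha
  rcases ha with ha | ha
  · exact (hp.2.2 a ha _ (List.mem_singleton_self _)).1.le
  · rw [List.mem_singleton] at ha
    rw [← ha]

theorem len_le (l : List Letter) (hp : l.Pairwise Foll) (m : ℕ) (hm : ∀ a ∈ l, nL a ≤ m) :
    l.length ≤ m + 1 := by
  have h1 : (l.map nL).Nodup := by
    rw [List.Nodup, List.pairwise_map]
    exact hp.imp (fun h => h.1.ne)
  have h2 : (l.map nL).toFinset ⊆ Finset.range (m + 1) := by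
    intro x hx
    rw [List.mem_toFinset, List.mem_map] at hx
    obtain ⟨a, ha, rfl⟩ := hx
    exact Finset.mem_range.2 (Nat.lt_succ_of_le (hm a ha))
  have h3 := Finset.card_le_card h2
  rw [List.toFinset_card_of_nodup h1, List.length_map, Finset.card_range] at h3
  exact h3

theorem fin_nodes (m : ℕ) : {l : List Letter | Nd l ∧ nL (lst l) ≤ m}.Finite := by
  apply (fin_lists _ (fin_letters m) (m + 1)).subset
  rintro l ⟨⟨hne, hg, hp⟩, hm⟩
  have h1 : ∀ a ∈ l, nL a ≤ m := fun a ha => (le_last l hp a ha).trans hm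
  exact ⟨len_le l hp m h1, fun a ha => ⟨hg a ha, h1 a ha⟩⟩

theorem nu0 : S_NODE → S_NU0 := by
  intro hN
  obtain ⟨-, -, hN3, -⟩ := hN
  have hle : ∀ t, IsNode t → nu t ≤ (nL (lt t) : ℝ) * (1 / 2 : ℝ) ^ (nL (lt t)) := by
    intro t ht
    obtain ⟨-, -, -, -, -, -, h7, -⟩ := hN3 t ht
    unfold nu
    rw [if_pos ht]
    apply mul_le_mul_of_nonneg_right _ (by positivity)
    exact_mod_cast h7
  refine ⟨?_, ?_, ?_⟩
  · intro δ hδ
    have hlim : Tendsto (fun n : ℕ => (n : ℝ) * (1 / 2 : ℝ) ^ n) atTop (𝓝 0) :=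
      tendsto_self_mul_const_pow_of_lt_one (by norm_num) (by norm_num)
    obtain ⟨m, hm⟩ := Filter.eventually_atTop.1 (hlim.eventually (gt_mem_nhds hδ))
    apply ((fin_nodes m).image idx).subset
    intro t ht
    have ht' : δ ≤ nu t := ht
    have hnode : IsNode t := by
      by_contra hno
      unfold nu at ht'
      rw [if_neg hno] at ht'
      linarith
    obtain ⟨h1, h2, -⟩ := hN3 t hnode
    refine ⟨nod t, ⟨h1, ?_⟩, h2⟩
    by_contra hbig
    push Not at hbig
    have h3 := hm (nL (lt t)) (by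
      have : lt t = lst (nod t) := rfl
      rw [this]
      exact hbig.le)
    have h4 := hle t hnode
    linarith
  · intro t
    by_cases ht : IsNode t
    · refine lt_of_le_of_lt (hle t ht) ?_
      have h1 : ((nL (lt t) : ℕ) : ℝ) < 2 ^ (nL (lt t)) := by
        exact_mod_cast Nat.lt_two_pow_self
      rw [one_div, inv_pow, ← div_eq_mul_inv, div_lt_one (by positivity)]
      exact h1
    · unfold nu
      rw [if_neg ht]
      norm_num
  · intro t
    unfold nu
    split_ifs
    · positivity
    · exact le_refl _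

end Pool.Agent.W576.RP
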