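import Pool.Agent.W133.RP.St

set_option autoImplicit false

open MeasureTheory Set Filter Topology Pool.Agent.W133.RP

namespace Pool.Agent.W576.RP

section basic

set_option linter.unusedSectionVars false

variable {E : Type} [NormedAddCommGroup E] [NormedSpace ℝ E]

lemma MR_mono {D K : Set E} (h : D ⊆ K) (x : E) : MR D x ⊆ MR K x :=
  fun _ hw => ⟨h hw.1, h hw.2⟩

lemma MS_mono_set {D K : Set E} (h : D ⊆ K) (x : E) (r : ℝ) : MS D x r ⊆ MS K x r :=
  fun _ hy => MR_mono h x hy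

lemma MS_mono {K : Set E} {x : E} (hconv : Convex ℝ (MR K x)) (h0 : (0 : E) ∈ MR K x)
    {r s : ℝ} (hr : 0 < r) (hrs : r ≤ s) : MS K x r ⊆ MS K x s := by
  intro y hy
  have hs : 0 < s := lt_of_lt_of_le hr hrs
  have hy' : r⁻¹ • (y - x) ∈ MR K x := hy
  show s⁻¹ • (y - x) ∈ MR K x
  have h1 : s⁻¹ • (y - x) = (s⁻¹ * r) • (r⁻¹ • (y - x)) := by
    rw [smul_smul, mul_assoc, mul_inv_cancel₀ hr.ne', mul_one]
  rw [h1]
  refine hconv.smul_mem_of_zero_mem h0 hy' ⟨by positivity, ?_⟩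
  rw [inv_mul_le_iff₀ hs]
  linarith

lemma MS_half_subset {K : Set E} (hK : Convex ℝ K) {x : E} (hx : x ∈ K) :
    MS K x (1 / 2) ⊆ K := by
  intro y hy
  have hy' : ((1 : ℝ) / 2)⁻¹ • (y - x) ∈ MR K x := hy
  have h1 := hy'.1
  have h2 := hK hx h1 (a := 1 / 2) (b := 1 / 2) (by norm_num) (by norm_num) (by norm_num)
  have h3 : ((1 : ℝ) / 2) • x + ((1 : ℝ) / 2) • (x + ((1 : ℝ) / 2)⁻¹ • (y - x)) = y := by
    rw [smul_add, smul_smul, mul_inv_cancel₀ (by norm_num), one_smul, ← add_assoc, ← add_smul]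
    norm_num
  rwa [h3] at h2

lemma self_mem_MS {K : Set E} {x : E} (h0 : (0 : E) ∈ MR K x) (r : ℝ) : x ∈ MS K x r := by
  show r⁻¹ • (x - x) ∈ MR K x
  simpa using h0

end basic

theorem ecc (h1 : S_MRB) (h2 : S_HALF) (h3 : S_DM) (h4 : S_OV) (h5 : S_IVT) : S_ECC := by
  classical
  intro E _ _ _ _ _ _ K hK
  obtain ⟨hMR, hMR0, hMRe, hMRi, hMS, hmeas, hfr, hvol, hfin, hle⟩ := h1 E K hK
  obtain ⟨hhalf, -⟩ := h2 E K hK
  have hov := h4 E K hK
  have hivt := h5 E K hK
  set d := Module.finrank ℝ E with hd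
  have hKc : IsCompact K := hK.2.1
  have hKconv : Convex ℝ K := hK.1
  set r1 : ℝ := 2 ^ (2 * d + 2) with hr1
  have hr1pos : 0 < r1 := by positivity
  set C : ℝ := max (max (4 ^ d) (2 * 10 ^ d)) (10 * r1 + 5) with hC
  have hC1 : (4 : ℝ) ^ d ≤ C := le_trans (le_max_left _ _) (le_max_left _ _)
  have hC2 : (2 : ℝ) * 10 ^ d ≤ C := le_trans (le_max_right _ _) (le_max_left _ _)
  have hC3 : 10 * r1 + 5 ≤ C := le_max_right _ _
  have hCone : 1 ≤ C := le_trans (one_le_pow₀ (by norm_num)) hC1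
  refine ⟨C, hCone, ?_⟩
  intro t ht htK
  -- the set X
  set X : Set E := {x | x ∈ K ∧ t ≤ 2 ^ d * mu K x ∧ mu K x ≤ 2 * t} with hX
  -- families
  let P : Finset E → Prop := fun I => (∀ x ∈ I, x ∈ X) ∧
    ((I : Set E).PairwiseDisjoint (fun x => MS K x (1 / 2)))
  have hMSvol : ∀ x ∈ X, t ≤ 4 ^ d * volume.real (MS K x (1 / 2)) := by
    intro x hx
    have e1 := (hMS x (1 / 2) (by norm_num)).2.2
    rw [e1]
    have e2 : (4 : ℝ) ^ d * ((1 / 2) ^ d * mu K x) = 2 ^ d * mu K x := by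
      rw [← mul_assoc, ← mul_pow]; norm_num
    rw [e2]
    exact hx.2.1
  have hfinMS : ∀ x, volume (MS K x (1 / 2)) ≠ ⊤ := fun x =>
    ((hMS x (1 / 2) (by norm_num)).1).measure_lt_top.ne
  have hmeasMS : ∀ x, MeasurableSet (MS K x (1 / 2)) := fun x =>
    ((hMS x (1 / 2) (by norm_num)).1).isClosed.measurableSet
  -- sub-level set of Phi
  set B : Set E := {y | y ∈ K ∧ mu K y ≤ 2 * 10 ^ d * t} with hB
  have hBK : B ⊆ K := fun y hy => hy.1
  have hcard : ∀ I : Finset E, P I → (I.card : ℝ) * t ≤ 4 ^ d * volume.real B := by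
    intro I hI
    have hsub : (⋃ x ∈ I, MS K x (1 / 2)) ⊆ B := by
      intro y hy
      simp only [mem_iUnion] at hy
      obtain ⟨x, hxI, hyx⟩ := hy
      have hxX := hI.1 x hxI
      have hyK : y ∈ K := MS_half_subset hKconv hxX.1 hyx
      refine ⟨hyK, ?_⟩
      have hyy : y ∈ MS K y (1 / 2) := self_mem_MS (hMR0 y hyK) _
      have := (hov y x y hyy hyx).2
      have h10 : (0 : ℝ) < 10 ^ d := by positivity
      calc mu K y ≤ 10 ^ d * mu K x := this
        _ ≤ 10 ^ d * (2 * t) := by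
            apply mul_le_mul_of_nonneg_left hxX.2.2 h10.le
        _ = 2 * 10 ^ d * t := by ring
    have hun : volume.real (⋃ x ∈ I, MS K x (1 / 2)) = ∑ x ∈ I, volume.real (MS K x (1 / 2)) := by
      exact measureReal_biUnion_finset hI.2 (fun x _ => hmeasMS x) (fun x _ => hfinMS x)
    have hBfin : volume B ≠ ⊤ := ne_top_of_le_ne_top hfin (measure_mono hBK)
    have hle1 : ∑ x ∈ I, volume.real (MS K x (1 / 2)) ≤ volume.real B := by
      rw [← hun]
      exact measureReal_mono hsub hBfin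
    calc (I.card : ℝ) * t = ∑ x ∈ I, t := by rw [Finset.sum_const, nsmul_eq_mul]
      _ ≤ ∑ x ∈ I, 4 ^ d * volume.real (MS K x (1 / 2)) :=
          Finset.sum_le_sum (fun x hx => hMSvol x (hI.1 x hx))
      _ = 4 ^ d * ∑ x ∈ I, volume.real (MS K x (1 / 2)) := by rw [Finset.mul_sum]
      _ ≤ 4 ^ d * volume.real B := by
          apply mul_le_mul_of_nonneg_left hle1 (by positivity)
  -- maximal family
  have hbdd : ∃ N : ℕ, ∀ I : Finset E, P I → I.card ≤ N := by
    refine ⟨⌈4 ^ d * volume.real B / t⌉₊, fun I hI => ?_⟩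
    have h := hcard I hI
    have h' : (I.card : ℝ) ≤ 4 ^ d * volume.real B / t := by
      rw [le_div_iff₀ ht]; exact h
    exact_mod_cast le_trans h' (Nat.le_ceil _)
  obtain ⟨I, hPI, hmax⟩ : ∃ I : Finset E, P I ∧ ∀ J : Finset E, P J → J.card ≤ I.card := by
    obtain ⟨N, hN⟩ := hbdd
    have hne : ∃ n, ∃ I : Finset E, P I ∧ I.card = n := ⟨0, ∅, ⟨by simp, by simp⟩, rfl⟩
    let Q : ℕ → Prop := fun n => ∃ I : Finset E, P I ∧ I.card = n
    have hQ : Q (Nat.findGreatest Q N) := by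
      apply Nat.findGreatest_spec (m := 0) (Nat.zero_le _)
      exact ⟨∅, ⟨by simp, by simp⟩, rfl⟩
    obtain ⟨I, hI, hIc⟩ := hQ
    refine ⟨I, hI, fun J hJ => ?_⟩
    rw [hIc]
    exact Nat.le_findGreatest (hN J hJ) ⟨J, hJ, rfl⟩
  refine ⟨I, fun x hx => ⟨(hPI.1 x hx).1, (hPI.1 x hx).2.2⟩, ?_, ?_⟩
  · have h := hcard I hPI
    have hB' : volume.real B ≤ Phi K (C * t) := by
      apply measureReal_mono
      · intro y hy
        refine ⟨hy.1, le_trans hy.2 ?_⟩
        exact mul_le_mul_of_nonneg_right hC2 ht.le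
      · exact ne_top_of_le_ne_top hfin (measure_mono (fun y hy => hy.1))
    have hPhi0 : 0 ≤ Phi K (C * t) := measureReal_nonneg
    calc (I.card : ℝ) * t ≤ 4 ^ d * volume.real B := h
      _ ≤ 4 ^ d * Phi K (C * t) := mul_le_mul_of_nonneg_left hB' (by positivity)
      _ ≤ C * Phi K (C * t) := mul_le_mul_of_nonneg_right hC1 hPhi0
  · intro l c hl hcap
    obtain ⟨c', hc', hvc'⟩ := hivt l c t hl hcap htK
    set D : Set E := cap K l c' with hD
    have hDK : D ⊆ K := fun y hy => hy.1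
    have hDeq : D = K ∩ {y | c' ≤ l y} := rfl
    have hDconv : Convex ℝ D := by
      rw [hDeq]
      exact hKconv.inter (convex_halfSpace_ge l.isLinear c')
    have hDc : IsCompact D := by
      rw [hDeq]
      exact hKc.inter_right (isClosed_le continuous_const l.continuous)
    obtain ⟨x, hxD, hx1, hx2⟩ := h3 E D hDconv hDc (by rw [hvc']; exact ht)
    have hxK : x ∈ K := hxD.1
    have hmuDK : mu D x ≤ mu K x := by
      exact measureReal_mono (MR_mono hDK x) (hMR x).2.1.measure_lt_top.ne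
    have hxX : x ∈ X := by
      refine ⟨hxK, ?_, ?_⟩
      · rw [← hvc']
        exact le_trans hx1 (mul_le_mul_of_nonneg_left hmuDK (by positivity))
      · rw [← hvc']
        exact hhalf x l c' hxD.2
    -- x meets some x_i
    obtain ⟨z, hzI, hne⟩ : ∃ z ∈ I, (MS K x (1 / 2) ∩ MS K z (1 / 2)).Nonempty := by
      by_contra hcon
      push Not at hcon
      have hxI : x ∉ I := by
        intro hxI
        have := hcon x hxI
        have hxx : x ∈ MS K x (1 / 2) := self_mem_MS (hMR0 x hxK) _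
        have : x ∈ (∅ : Set E) := by
          rw [← this]; exact ⟨hxx, hxx⟩
        exact this
      have hP : P (insert x I) := by
        refine ⟨?_, ?_⟩
        · intro y hy
          rcases Finset.mem_insert.1 hy with rfl | hy
          · exact hxX
          · exact hPI.1 y hy
        · rw [Finset.coe_insert]
          apply hPI.2.insert
          intro y hy _
          exact Set.disjoint_iff_inter_eq_empty.2 (hcon y hy)
      have := hmax _ hP
      rw [Finset.card_insert_of_notMem hxI] at this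
      omega
    obtain ⟨a, ha1, ha2⟩ := hne
    have hzX := hPI.1 z hzI
    refine ⟨z, hzI, ?_⟩
    have s1 : cap K l c ⊆ D := fun y hy => ⟨hy.1, le_trans hc' hy.2⟩
    have s2 : D ⊆ MS K x r1 := fun y hy => MS_mono_set hDK x _ (hx2 hy)
    have s3 : MS K x r1 ⊆ MS K z (10 * r1 + 5) := (hov x z a ha1 ha2).1 r1 hr1pos
    have s4 : MS K z (10 * r1 + 5) ⊆ MS K z C :=
      MS_mono (hMR z).1 (hMR0 z hzX.1) (by positivity) hC3
    exact fun y hy => s4 (s3 (s2 (s1 hy)))

end Pool.Agent.W576.RP
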